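import Pool.Agent.Work.MP_3154ac_lc.Stmts

/-!
# The general gap `q < k`: definitions and items
-/

set_option autoImplicit false

namespace Pool.Agent.Work.MP_3154ac_lc

open N68a2faeb Finset Pool.Agent.PT

/-- MAT: a large matching in the complement -/
def S_MAT : Prop := ∀ (V : Type) [Fintype V] [DecidableEq V] (H : SimpleGraph V)
  [DecidableRel H.Adj] (q : ℕ), cq H q = 0 → ∃ (M : Finset V) (π : V → V),
    (∀ v ∈ M, ¬ H.Adj v (π v) ∧ v ≠ π v) ∧ Set.InjOn π M ∧ Fintype.card V < M.card + q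

/-- SM: a random tuple contains a pair of the matching -/
def S_SM : Prop := ∀ (V : Type) [Fintype V] [DecidableEq V] (H : SimpleGraph V)
  [DecidableRel H.Adj] (M : Finset V) (π : V → V) (r : ℕ), 1 ≤ r → r ≤ 2 * Fintype.card V →
    (∀ v ∈ M, ¬ H.Adj v (π v) ∧ v ≠ π v) → Set.InjOn π M →
    Fintype.card V ^ 2 ≤ r ^ 2 * M.card →
      6 * nv H (2 * r) ≤ 5 * Fintype.card V ^ (2 * r)

/-- length of the tuples -/
def ss (q k : ℕ) : ℕ :=
  if 2 * q ≤ k then sS 2 1 q else 2 * (Nat.sqrt (k * k / (k - q)) + 1)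

/-- number of coordinates -/
def kk (q k : ℕ) : ℕ := if 2 * q ≤ k then kK 2 1 q k else k

/-- CNT2: a random tuple contains a violated pair with constant probability (uses CNT, MAT,
SM) -/
def S_CNT2 : Prop := ∃ c0 : ℕ, 0 < c0 ∧ ∀ q k, 2 ≤ q → q < k →
  ∀ (H : SimpleGraph (Fin (kk q k))) [DecidableRel H.Adj],
    cq H q = 0 → c0 * nv H (ss q k) ≤ (c0 - 1) * kk q k ^ ss q k

/-- the auxiliary data -/
def auxP2 (q k : ℕ) : List (List Bool) :=
  if q ≤ 1 then [[], List.replicate q true]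
  else
    let s := ss q k
    let K := kk q k
    let L := K ^ s * (2 * K ^ (s + 1) * s ^ 2)
    [[true], List.replicate s true, List.replicate K true, List.replicate L true,
      List.replicate L.factorial true, List.replicate ((2 * (L * L.factorial + 1)) ^ K) true]

/-- the parameter of the new instance -/
def newK2 (q k : ℕ) : ℕ :=
  let s := ss q k
  let K := kk q k
  2 * (K ^ s * (2 * K ^ (s + 1) * s ^ 2))

/-- AUX2: computability of the auxiliary data -/
def S_AUX2 : Prop := (Computable fun p : ℕ × ℕ => auxP2 p.1 p.2) ∧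
  (Computable fun p : ℕ × ℕ => newK2 p.1 p.2)

/-- SQR2: the length of the tuples -/
def S_SQR2 : Prop := ∀ q k : ℕ, 2 ≤ q → q < k → 1 ≤ ss q k ∧
  ss q k ≤ 6 * Nat.sqrt (q * k / (k - q))

/-- The main theorem for arbitrary gaps (`q k < k` for `k > 0`, and `q 0 = 0`). -/
def Main2 : Prop := ¬ PIH → ∀ q : ℕ → ℕ, Computable q → (∀ k, q k ≤ k - 1) →
    InTime (fun k => Nat.sqrt (q k * k / (k - q k))) (fun G k => HasClique G k)
      (fun G k => ¬ HasClique G (q k))

end Pool.Agent.Work.MP_3154ac_lc
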