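import Mathlib
import Pool.Agent.Work.MP_3154ac_lc.Stmts2

set_option autoImplicit false

namespace Pool.Agent.Work.MP_3154ac_lc

open Finset

namespace I_SM

open Finset

set_option linter.unusedSectionVars false

theorem upd {I V : Type} [Fintype I] [DecidableEq I] [Fintype V] (i : I) (F : (I → V) → ℕ) :
    Fintype.card V * ∑ f : I → V, F f = ∑ f : I → V, ∑ x : V, F (Function.update f i x) := by
  classical
  have h : ∑ p : (I → V) × V, F (Function.update p.1 i p.2) = ∑ p : (I → V) × V, F p.1 := by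
    refine Fintype.sum_bijective
      (fun p : (I → V) × V => (Function.update p.1 i p.2, p.1 i)) ?_ _ _ ?_
    · apply Function.Involutive.bijective
      intro p
      simp
    · intro p
      rfl
  rw [Fintype.sum_prod_type, Fintype.sum_prod_type] at h
  rw [h]
  simp [Finset.mul_sum]

theorem card_fun (I V : Type) [Fintype I] [DecidableEq I] [Fintype V] :
    ∑ _f : I → V, 1 = Fintype.card V ^ Fintype.card I := by
  simp

theorem two {I V : Type} [Fintype I] [DecidableEq I] [Fintype V] (i j : I) (hij : i ≠ j)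
    (g : V → V → ℕ) :
    Fintype.card V ^ 2 * ∑ f : I → V, g (f i) (f j) =
      Fintype.card V ^ Fintype.card I * ∑ x, ∑ y, g x y := by
  have h1 := upd (V := V) i (fun f => g (f i) (f j))
  have h2 : ∀ x : V, Fintype.card V * ∑ f : I → V, g x (f j) =
      Fintype.card V ^ Fintype.card I * ∑ y, g x y := by
    intro x
    rw [upd j (fun f => g x (f j))]
    simp only [Function.update_self]
    rw [Finset.sum_const, Finset.card_univ, smul_eq_mul, Fintype.card_fun]
  simp only [Function.update_self, Function.update_of_ne hij.symm] at h1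
  rw [pow_two, mul_assoc, h1, Finset.sum_comm, Finset.mul_sum, Finset.mul_sum]
  exact Finset.sum_congr rfl fun x _ => h2 x

theorem three {I V : Type} [Fintype I] [DecidableEq I] [Fintype V] (i j l : I) (hij : i ≠ j)
    (hil : i ≠ l) (hjl : j ≠ l) (g : V → V → V → ℕ) :
    Fintype.card V ^ 3 * ∑ f : I → V, g (f i) (f j) (f l) =
      Fintype.card V ^ Fintype.card I * ∑ x, ∑ y, ∑ z, g x y z := by
  have h1 := upd (V := V) i (fun f => g (f i) (f j) (f l))
  simp only [Function.update_self, Function.update_of_ne hij.symm,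
    Function.update_of_ne hil.symm] at h1
  rw [pow_succ, mul_assoc, h1, Finset.sum_comm, Finset.mul_sum, Finset.mul_sum]
  exact Finset.sum_congr rfl fun x _ => two j l hjl (g x)

theorem four {I V : Type} [Fintype I] [DecidableEq I] [Fintype V] (i j l m : I) (hij : i ≠ j)
    (hil : i ≠ l) (him : i ≠ m) (hjl : j ≠ l) (hjm : j ≠ m) (hlm : l ≠ m)
    (g : V → V → V → V → ℕ) :
    Fintype.card V ^ 4 * ∑ f : I → V, g (f i) (f j) (f l) (f m) =
      Fintype.card V ^ Fintype.card I * ∑ x, ∑ y, ∑ z, ∑ w, g x y z w := by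
  have h1 := upd (V := V) i (fun f => g (f i) (f j) (f l) (f m))
  simp only [Function.update_self, Function.update_of_ne hij.symm,
    Function.update_of_ne hil.symm, Function.update_of_ne him.symm] at h1
  rw [pow_succ, mul_assoc, h1, Finset.sum_comm, Finset.mul_sum, Finset.mul_sum]
  exact Finset.sum_congr rfl fun x _ => three j l m hjl hjm hlm (g x)

section

variable {I V : Type} [Fintype I] [DecidableEq I] [Fintype V] [DecidableEq V]
  (M : Finset V) (φ : V → V)

/-- the indicator of the event -/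
def ev (x y : V) : ℕ := if x ∈ M ∧ y = φ x then 1 else 0

theorem ev_le (x y : V) : ev M φ x y ≤ 1 := by
  unfold ev
  split_ifs <;> omega

theorem ev_sum (x : V) : ∑ y, ev M φ x y = if x ∈ M then 1 else 0 := by
  unfold ev
  by_cases h : x ∈ M
  · simp [h]
  · simp [h]

theorem s2 : ∑ x, ∑ y, ev M φ x y = M.card := by
  simp only [ev_sum]
  simp

theorem s2' : ∑ x, ∑ y, ev M φ x y * ev M φ x y = M.card := by
  rw [← s2 M φ]
  refine Finset.sum_congr rfl fun x _ => Finset.sum_congr rfl fun y _ => ?_
  unfold ev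
  split_ifs <;> rfl

theorem s3a : ∑ x, ∑ y, ∑ y', ev M φ x y * ev M φ x y' = M.card := by
  rw [← s2 M φ]
  refine Finset.sum_congr rfl fun x _ => Finset.sum_congr rfl fun y _ => ?_
  rw [← Finset.mul_sum, ev_sum]
  unfold ev
  split_ifs <;> simp_all

theorem s3b (hφ : Set.InjOn φ M) : ∑ y, ∑ x, ∑ x', ev M φ x y * ev M φ x' y ≤ M.card := by
  have h1 : ∀ y x, ∑ x', ev M φ x y * ev M φ x' y ≤ ev M φ x y := by
    intro y x
    by_cases hx : x ∈ M ∧ y = φ x
    · rw [← Finset.mul_sum]
      have : ∑ x', ev M φ x' y ≤ 1 := by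
        rw [Finset.sum_eq_single x]
        · exact ev_le M φ x y
        · intro b _ hb
          unfold ev
          rw [if_neg]
          rintro ⟨hb1, hb2⟩
          exact hb (hφ hb1 hx.1 (hb2.symm.trans hx.2))
        · intro h
          exact absurd (Finset.mem_univ x) h
      exact (Nat.mul_le_mul_left _ this).trans (by rw [mul_one])
    · have : ev M φ x y = 0 := by
        unfold ev
        rw [if_neg hx]
      simp [this]
  calc ∑ y, ∑ x, ∑ x', ev M φ x y * ev M φ x' y ≤ ∑ y, ∑ x, ev M φ x y :=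
        Finset.sum_le_sum fun y _ => Finset.sum_le_sum fun x _ => h1 y x
    _ = ∑ x, ∑ y, ev M φ x y := Finset.sum_comm
    _ = M.card := s2 M φ

theorem s4 : ∑ x, ∑ y, ∑ x', ∑ y', ev M φ x y * ev M φ x' y' = M.card * M.card := by
  have h1 : ∀ x y, ∑ x', ∑ y', ev M φ x y * ev M φ x' y' = ev M φ x y * M.card := by
    intro x y
    rw [← s2 M φ, Finset.mul_sum]
    exact Finset.sum_congr rfl fun x' _ => (Finset.mul_sum _ _ _).symm
  simp only [h1]
  simp only [← Finset.sum_mul]
  rw [s2 M φ]

variable {r : ℕ} (L R : Fin r → I)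

/-- number of events -/
def Z (f : I → V) : ℕ := ∑ a, ∑ b, ev M φ (f (L a)) (f (R b))

theorem sumZ (hLR : ∀ a b, L a ≠ R b) :
    Fintype.card V ^ 2 * ∑ f : I → V, Z M φ L R f =
      Fintype.card V ^ Fintype.card I * (r ^ 2 * M.card) := by
  have h1 : ∑ f : I → V, Z M φ L R f = ∑ a, ∑ b, ∑ f : I → V, ev M φ (f (L a)) (f (R b)) := by
    unfold Z
    rw [Finset.sum_comm]
    exact Finset.sum_congr rfl fun a _ => Finset.sum_comm
  rw [h1, Finset.mul_sum]
  have h2 : ∀ a : Fin r, Fintype.card V ^ 2 * ∑ b, ∑ f : I → V, ev M φ (f (L a)) (f (R b)) =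
      r * (Fintype.card V ^ Fintype.card I * M.card) := by
    intro a
    rw [Finset.mul_sum]
    have h3 : ∀ b : Fin r, Fintype.card V ^ 2 * ∑ f : I → V, ev M φ (f (L a)) (f (R b)) =
        Fintype.card V ^ Fintype.card I * M.card := by
      intro b
      rw [two (L a) (R b) (hLR a b) (ev M φ), s2]
    simp [h3]
  simp only [h2]
  simp
  ring

theorem quad (hφ : Set.InjOn φ M) (hL : Function.Injective L) (hR : Function.Injective R)
    (hLR : ∀ a b, L a ≠ R b) (a b a' b' : Fin r) :
    Fintype.card V ^ 4 *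
      ∑ f : I → V, ev M φ (f (L a)) (f (R b)) * ev M φ (f (L a')) (f (R b')) ≤
    Fintype.card V ^ Fintype.card I * ((if a = a' then (if b = b' then
      M.card * Fintype.card V ^ 2 else 0) else 0) + (if a = a' then M.card * Fintype.card V else 0)
      + (if b = b' then M.card * Fintype.card V else 0) + M.card * M.card) := by
  by_cases ha : a = a'
  · subst ha
    by_cases hb : b = b'
    · subst hb
      have h1 := two (L a) (R b) (hLR a b) (fun x y => ev M φ x y * ev M φ x y)
      rw [s2'] at h1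
      simp only [if_true]
      have h2 : Fintype.card V ^ 4 *
          ∑ f : I → V, ev M φ (f (L a)) (f (R b)) * ev M φ (f (L a)) (f (R b)) =
          Fintype.card V ^ Fintype.card I * (M.card * Fintype.card V ^ 2) := by
        calc _ = Fintype.card V ^ 2 * (Fintype.card V ^ 2 *
              ∑ f : I → V, ev M φ (f (L a)) (f (R b)) * ev M φ (f (L a)) (f (R b))) := by ring
          _ = _ := by rw [h1]; ring
      rw [h2]
      apply Nat.mul_le_mul_left
      omega
    · have h1 := three (L a) (R b) (R b') (hLR a b) (hLR a b') (fun h => hb (hR h))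
        (fun x y y' => ev M φ x y * ev M φ x y')
      rw [s3a] at h1
      simp only [if_true, if_neg hb]
      have h2 : Fintype.card V ^ 4 *
          ∑ f : I → V, ev M φ (f (L a)) (f (R b)) * ev M φ (f (L a)) (f (R b')) =
          Fintype.card V ^ Fintype.card I * (M.card * Fintype.card V) := by
        calc _ = Fintype.card V * (Fintype.card V ^ 3 *
              ∑ f : I → V, ev M φ (f (L a)) (f (R b)) * ev M φ (f (L a)) (f (R b'))) := by ring
          _ = _ := by rw [h1]; ring
      rw [h2]
      apply Nat.mul_le_mul_left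
      omega
  · by_cases hb : b = b'
    · subst hb
      have h1 := three (R b) (L a) (L a') (hLR a b).symm (hLR a' b).symm (fun h => ha (hL h))
        (fun y x x' => ev M φ x y * ev M φ x' y)
      simp only [if_true, if_neg ha]
      have h2 : Fintype.card V ^ 4 *
          ∑ f : I → V, ev M φ (f (L a)) (f (R b)) * ev M φ (f (L a')) (f (R b)) ≤
          Fintype.card V ^ Fintype.card I * (M.card * Fintype.card V) := by
        calc _ = Fintype.card V * (Fintype.card V ^ 3 *
              ∑ f : I → V, ev M φ (f (L a)) (f (R b)) * ev M φ (f (L a')) (f (R b))) := by ring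
          _ = Fintype.card V * (Fintype.card V ^ Fintype.card I *
              ∑ y, ∑ x, ∑ x', ev M φ x y * ev M φ x' y) := by rw [h1]
          _ ≤ Fintype.card V * (Fintype.card V ^ Fintype.card I * M.card) :=
              Nat.mul_le_mul_left _ (Nat.mul_le_mul_left _ (s3b M φ hφ))
          _ = _ := by ring
      refine h2.trans (Nat.mul_le_mul_left _ ?_)
      omega
    · have h1 := four (L a) (R b) (L a') (R b') (hLR a b) (fun h => ha (hL h)) (hLR a b')
        (hLR a' b).symm (fun h => hb (hR h)) (hLR a' b')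
        (fun x y x' y' => ev M φ x y * ev M φ x' y')
      rw [s4] at h1
      simp only [if_neg ha, if_neg hb]
      rw [h1]
      apply Nat.mul_le_mul_left
      omega

theorem sumZ2 (hφ : Set.InjOn φ M) (hL : Function.Injective L) (hR : Function.Injective R)
    (hLR : ∀ a b, L a ≠ R b) :
    Fintype.card V ^ 4 * ∑ f : I → V, Z M φ L R f ^ 2 ≤
      Fintype.card V ^ Fintype.card I * (r ^ 2 * M.card * Fintype.card V ^ 2 +
        2 * r ^ 3 * M.card * Fintype.card V + r ^ 4 * M.card ^ 2) := by
  have h0 : ∀ f : I → V, Z M φ L R f ^ 2 =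
      ∑ a, ∑ b, ∑ a', ∑ b', ev M φ (f (L a)) (f (R b)) * ev M φ (f (L a')) (f (R b')) := by
    intro f
    unfold Z
    rw [pow_two, Finset.sum_mul]
    refine Finset.sum_congr rfl fun a _ => ?_
    rw [Finset.sum_mul]
    refine Finset.sum_congr rfl fun b _ => ?_
    rw [Finset.mul_sum]
    refine Finset.sum_congr rfl fun a' _ => ?_
    rw [Finset.mul_sum]
  have h1 : ∑ f : I → V, Z M φ L R f ^ 2 =
      ∑ a, ∑ b, ∑ a', ∑ b', ∑ f : I → V,
        ev M φ (f (L a)) (f (R b)) * ev M φ (f (L a')) (f (R b')) := by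
    simp only [h0]
    rw [Finset.sum_comm]
    refine Finset.sum_congr rfl fun a _ => ?_
    rw [Finset.sum_comm]
    refine Finset.sum_congr rfl fun b _ => ?_
    rw [Finset.sum_comm]
    refine Finset.sum_congr rfl fun a' _ => ?_
    rw [Finset.sum_comm]
  rw [h1]
  simp only [Finset.mul_sum]
  simp only [← Finset.mul_sum]
  have h2 : ∑ a, ∑ b, ∑ a', ∑ b', Fintype.card V ^ 4 * ∑ f : I → V,
        ev M φ (f (L a)) (f (R b)) * ev M φ (f (L a')) (f (R b')) ≤
      ∑ a : Fin r, ∑ b : Fin r, ∑ a' : Fin r, ∑ b' : Fin r,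
        Fintype.card V ^ Fintype.card I * ((if a = a' then (if b = b' then
      M.card * Fintype.card V ^ 2 else 0) else 0) + (if a = a' then M.card * Fintype.card V else 0)
      + (if b = b' then M.card * Fintype.card V else 0) + M.card * M.card) :=
    Finset.sum_le_sum fun a _ => Finset.sum_le_sum fun b _ => Finset.sum_le_sum fun a' _ =>
      Finset.sum_le_sum fun b' _ => quad M φ L R hφ hL hR hLR a b a' b'
  simp only [← Finset.mul_sum] at h2
  refine h2.trans (Nat.mul_le_mul_left _ (le_of_eq ?_))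
  simp only [Finset.sum_add_distrib, Finset.sum_ite_eq, Finset.mem_univ, if_true,
    Finset.sum_const, Finset.card_univ, Fintype.card_fin, smul_eq_mul]
  have h3 : ∀ a b : Fin r, ∑ a' : Fin r, ∑ b' : Fin r, (if a = a' then (if b = b' then
      M.card * Fintype.card V ^ 2 else 0) else 0) = M.card * Fintype.card V ^ 2 := by
    intro a b
    simp
  have h4 : ∀ a : Fin r, ∑ a' : Fin r, r * (if a = a' then M.card * Fintype.card V else 0) =
      r * (M.card * Fintype.card V) := by
    intro a
    simp
  simp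
  ring

theorem main (hφ : Set.InjOn φ M) (hL : Function.Injective L) (hR : Function.Injective R)
    (hLR : ∀ a b, L a ≠ R b) (hk : 0 < Fintype.card V) (h1 : Fintype.card V ^ 2 ≤ r ^ 2 * M.card)
    (h2 : r ≤ 2 * Fintype.card V) :
    Fintype.card V ^ Fintype.card I ≤
      6 * (univ.filter fun f : I → V => 0 < Z M φ L R f).card := by
  set k := Fintype.card V with hkdef
  set T := k ^ Fintype.card I with hT
  set P := (univ.filter fun f : I → V => 0 < Z M φ L R f).card with hP
  have e1 := sumZ M φ L R hLR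
  have e2 := sumZ2 M φ L R hφ hL hR hLR
  have e3 : (∑ f : I → V, Z M φ L R f) ^ 2 ≤ P * ∑ f : I → V, Z M φ L R f ^ 2 := by
    have c1 : ∑ f : I → V, Z M φ L R f =
        ∑ f ∈ univ.filter (fun f : I → V => 0 < Z M φ L R f), Z M φ L R f := by
      symm
      apply Finset.sum_filter_of_ne
      intro f _ hf
      omega
    have c2 : ∑ f ∈ univ.filter (fun f : I → V => 0 < Z M φ L R f), Z M φ L R f ^ 2 ≤
        ∑ f : I → V, Z M φ L R f ^ 2 :=
      Finset.sum_le_sum_of_subset (Finset.filter_subset _ _)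
    rw [c1]
    exact (sq_sum_le_card_mul_sum_sq).trans (Nat.mul_le_mul_left _ c2)
  rw [← hkdef, ← hT] at e1 e2
  set S1 := ∑ f : I → V, Z M φ L R f
  set S2 := ∑ f : I → V, Z M φ L R f ^ 2
  set m := M.card
  have hTpos : 0 < T := pow_pos hk _
  -- Λ = r² m
  set Λ := r ^ 2 * m with hΛ
  have hΛpos : 0 < Λ := lt_of_lt_of_le (pow_pos hk 2) h1
  have b1 : r ^ 2 * m * k ^ 2 + 2 * r ^ 3 * m * k + r ^ 4 * m ^ 2 ≤ 6 * Λ * Λ := by
    have d1 : 2 * r ^ 3 * m * k ≤ 4 * (Λ * k ^ 2) := by
      calc 2 * r ^ 3 * m * k = 2 * (Λ * k) * r := by rw [hΛ]; ring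
        _ ≤ 2 * (Λ * k) * (2 * k) := Nat.mul_le_mul_left _ h2
        _ = 4 * (Λ * k ^ 2) := by ring
    have d2 : Λ * k ^ 2 ≤ Λ * Λ := Nat.mul_le_mul_left _ h1
    have d3 : r ^ 4 * m ^ 2 = Λ * Λ := by rw [hΛ]; ring
    have d4 : r ^ 2 * m * k ^ 2 = Λ * k ^ 2 := by rw [hΛ]
    rw [d3, d4]
    nlinarith
  have b2 : (T * Λ) ^ 2 ≤ P * (T * (6 * Λ * Λ)) := by
    calc (T * Λ) ^ 2 = (k ^ 2 * S1) ^ 2 := by rw [e1]
      _ = k ^ 4 * S1 ^ 2 := by ring
      _ ≤ k ^ 4 * (P * S2) := Nat.mul_le_mul_left _ e3
      _ = P * (k ^ 4 * S2) := by ring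
      _ ≤ P * (T * (r ^ 2 * m * k ^ 2 + 2 * r ^ 3 * m * k + r ^ 4 * m ^ 2)) :=
        Nat.mul_le_mul_left _ e2
      _ ≤ P * (T * (6 * Λ * Λ)) := Nat.mul_le_mul_left _ (Nat.mul_le_mul_left _ b1)
  have b3 : (T * Λ * Λ) * T ≤ (T * Λ * Λ) * (6 * P) := by
    calc (T * Λ * Λ) * T = (T * Λ) ^ 2 := by ring
      _ ≤ P * (T * (6 * Λ * Λ)) := b2
      _ = _ := by ring
  exact Nat.le_of_mul_le_mul_left b3 (by positivity)

end

end I_SM

theorem pr_SM : S_SM := by
  intro V _ _ H _ M φ r hr hrk hM hφ hsq
  have hk : 0 < Fintype.card V := by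
    rcases Nat.eq_zero_or_pos (Fintype.card V) with h | h
    · omega
    · exact h
  let L : Fin r → Fin (2 * r) := fun a => ⟨a.1, by have := a.2; omega⟩
  let R : Fin r → Fin (2 * r) := fun b => ⟨r + b.1, by have := b.2; omega⟩
  have hL : Function.Injective L := by
    intro a b h
    have := congrArg Fin.val h
    exact Fin.ext this
  have hR : Function.Injective R := by
    intro a b h
    have h1 := congrArg Fin.val h
    simp only [R] at h1
    exact Fin.ext (by omega)
  have hLR : ∀ a b, L a ≠ R b := by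
    intro a b h
    have h1 := congrArg Fin.val h
    have h2 := a.2
    simp only [L, R] at h1
    omega
  have hmain := I_SM.main (I := Fin (2 * r)) M φ L R hφ hL hR hLR hk hsq hrk
  rw [Fintype.card_fin] at hmain
  have hdisj : nv H (2 * r) + (univ.filter fun f : Fin (2 * r) → V =>
      0 < I_SM.Z M φ L R f).card ≤ Fintype.card V ^ (2 * r) := by
    unfold nv
    rw [← Finset.card_union_of_disjoint]
    · refine (Finset.card_le_univ _).trans (le_of_eq ?_)
      simp
    · rw [Finset.disjoint_left]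
      intro f hf hf'
      rw [Finset.mem_filter] at hf hf'
      have h1 := hf.2
      have h2 := hf'.2
      unfold I_SM.Z at h2
      obtain ⟨a, _, ha⟩ := Finset.exists_ne_zero_of_sum_ne_zero h2.ne'
      obtain ⟨b, _, hb⟩ := Finset.exists_ne_zero_of_sum_ne_zero ha
      unfold I_SM.ev at hb
      by_cases hc : f (L a) ∈ M ∧ f (R b) = φ (f (L a))
      · have h3 := hM _ hc.1
        rcases h1 (L a) (R b) with h4 | h4
        · exact h3.2 (h4.trans hc.2)
        · rw [hc.2] at h4
          exact h3.1 h4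
      · rw [if_neg hc] at hb
        exact hb rfl
  omega

end Pool.Agent.Work.MP_3154ac_lc
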