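import Pool.Agent.Work.MP_3154ac_lc.Bd.B02
import Pool.Agent.Work.MP_3154ac_lc.Bd.B01
import Pool.Agent.Work.MP_3154ac_lc.Bd.B03
import Pool.Agent.Work.MP_3154ac_lc.I_SM

/-!
# The main theorem, general gap
-/

set_option autoImplicit false

namespace Pool.Agent.Work.MP_3154ac_lc

theorem core_thm : Core := by
  have hABS := pr_ABS (pr_BAD pr_HASH) (pr_GLO pr_DIG)
  have hCNT := pr_CNT (pr_TUR pr_MM) pr_NV pr_BON
  exact core (pr_CNT2 hCNT pr_MAT pr_SM) (pr_SND hABS pr_ROOT pr_DIG)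
    (pr_CPL pr_ROOT pr_DIG pr_VLD) pr_VLD (pr_SQR2 pr_SQR)

theorem main2 : Main2 := asm2 pr_AUX2 pr_APT pr_RPT core_thm

end Pool.Agent.Work.MP_3154ac_lc
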