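import Pool.Agent.Work.MP_3154ac_lc.Stmts3

/-!
# SUB: cliques in the subgraph of the common neighbours
-/

set_option autoImplicit false

namespace Pool.Agent.Work.MP_3154ac_lc

open N68a2faeb Finset Pool.Agent.PT

namespace I_SUB

theorem adj_iff (G : Code) (i j : Fin G.length) :
    (graph G).Adj i j ↔ adjB G (i : ℕ) (j : ℕ) = true := by
  unfold adjB
  show (i ≠ j ∧ (entry G i j = true ∨ entry G j i = true)) ↔ _
  rw [Bool.and_eq_true, Bool.or_eq_true, decide_eq_true_eq, Fin.val_ne_iff]

theorem adjB_comm (G : Code) (u v : ℕ) : adjB G u v = adjB G v u := by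
  unfold adjB
  rw [Bool.or_comm]
  congr 1
  exact decide_eq_decide.mpr ne_comm

theorem length_sub (G : Code) (T : List ℕ) : (sub G T).length = (nbr G T).length := by
  unfold sub
  rw [List.length_map]

theorem mem_nbr {G : Code} {T : List ℕ} {v : ℕ} :
    v ∈ nbr G T ↔ v < G.length ∧ ∀ u ∈ T, adjB G u v = true := by
  unfold nbr
  rw [List.mem_filter, List.mem_range, List.all_eq_true]

theorem nodup_nbr (G : Code) (T : List ℕ) : (nbr G T).Nodup := by
  unfold nbr
  exact List.nodup_range.filter _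

theorem entry_sub {G : Code} {T : List ℕ} {a b : ℕ} (ha : a < (nbr G T).length)
    (hb : b < (nbr G T).length) :
    entry (sub G T) a b = adjB G (nbr G T)[a] (nbr G T)[b] := by
  have h1 : (sub G T).getD a [] = (nbr G T).map fun v => adjB G (nbr G T)[a] v := by
    unfold sub
    rw [List.getD_eq_getElem _ _ (by rw [List.length_map]; exact ha), List.getElem_map]
  unfold entry
  rw [h1, List.getD_eq_getElem _ _ (by rw [List.length_map]; exact hb), List.getElem_map]

/-- the inclusion of the vertices -/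
def e (G : Code) (T : List ℕ) : Fin (sub G T).length ↪ Fin G.length where
  toFun a := ⟨(nbr G T)[(a : ℕ)]'(by rw [← length_sub]; exact a.2),
    (mem_nbr.mp (List.getElem_mem _)).1⟩
  inj' := by
    intro a b hab
    have h1 := Fin.ext_iff.mp hab
    simp only at h1
    exact Fin.ext ((nodup_nbr G T).getElem_inj_iff.mp h1)

theorem e_adj (G : Code) (T : List ℕ) (a b : Fin (sub G T).length) :
    (graph (sub G T)).Adj a b ↔ (graph G).Adj (e G T a) (e G T b) := by
  have ha : (a : ℕ) < (nbr G T).length := by rw [← length_sub]; exact a.2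
  have hb : (b : ℕ) < (nbr G T).length := by rw [← length_sub]; exact b.2
  rw [adj_iff G]
  show (a ≠ b ∧ (entry (sub G T) a b = true ∨ entry (sub G T) b a = true)) ↔
    adjB G (nbr G T)[(a : ℕ)] (nbr G T)[(b : ℕ)] = true
  rw [entry_sub ha hb, entry_sub hb ha, adjB_comm G (nbr G T)[(b : ℕ)], or_self]
  constructor
  · exact fun h => h.2
  · intro h
    refine ⟨?_, h⟩
    rintro rfl
    unfold adjB at h
    simp at h

end I_SUB

open I_SUB in
theorem pr_SUB : S_SUB := by
  classical
  intro G T m
  constructor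
  · rintro ⟨s, hs, hm⟩
    refine ⟨s.map (e G T), ⟨?_, ?_⟩, ?_⟩
    · intro x hx y hy hxy
      obtain ⟨a, ha, rfl⟩ := mem_map.mp (mem_coe.mp hx)
      obtain ⟨b, hb, rfl⟩ := mem_map.mp (mem_coe.mp hy)
      exact (e_adj G T a b).mp (hs (mem_coe.mpr ha) (mem_coe.mpr hb)
        (fun h => hxy (by rw [h])))
    · rw [card_map, hm]
    · intro v hv u hu
      obtain ⟨a, ha, rfl⟩ := mem_map.mp hv
      exact (mem_nbr.mp (List.getElem_mem _)).2 u hu
  · rintro ⟨s, ⟨hs, hm⟩, hT⟩
    have hmap : (univ.filter fun a => e G T a ∈ s).map (e G T) = s := by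
      ext v
      rw [mem_map]
      constructor
      · rintro ⟨a, ha, rfl⟩
        exact (mem_filter.mp ha).2
      · intro hv
        have h1 : (v : ℕ) ∈ nbr G T := mem_nbr.mpr ⟨v.2, hT v hv⟩
        obtain ⟨i, hi, hiv⟩ := List.mem_iff_getElem.mp h1
        have h2 : e G T ⟨i, by rw [length_sub]; exact hi⟩ = v := Fin.ext hiv
        exact ⟨⟨i, by rw [length_sub]; exact hi⟩, mem_filter.mpr ⟨mem_univ _, by rw [h2]; exact hv⟩,
          h2⟩
    refine ⟨univ.filter fun a => e G T a ∈ s, ⟨?_, ?_⟩⟩
    · intro a ha b hb hab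
      have ha' := (mem_filter.mp (mem_coe.mp ha)).2
      have hb' := (mem_filter.mp (mem_coe.mp hb)).2
      exact (e_adj G T a b).mpr (hs (mem_coe.mpr ha') (mem_coe.mpr hb')
        (fun h => hab ((e G T).injective h)))
    · rw [← card_map (e G T), hmap, hm]

end Pool.Agent.Work.MP_3154ac_lc
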