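import Pool.Agent.Work.MP_3154ac_lc.All2
import Pool.Agent.Work.MP_3154ac_lc.Bd.B04
import Pool.Agent.Work.MP_3154ac_lc.I_SUB
import Pool.Agent.Work.MP_3154ac_lc.Bd.B05

/-!
# The main theorem for search algorithms
-/

set_option autoImplicit false

namespace Pool.Agent.Work.MP_3154ac_lc

theorem main3 : Main3 :=
  asm3 (pr_AUS pr_AUX2) pr_APS pr_RPT core_thm
    (pr_LOOP pr_SUB (pr_RND (pr_STEP pr_SUB pr_DIG) pr_DIG) pr_ARI pr_OUT)

end Pool.Agent.Work.MP_3154ac_lc
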