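import Pool.Agent.Work.MP_3154ac_lc.Stmts

set_option autoImplicit false

namespace Pool.Agent.Work.MP_3154ac_lc

open Finset

namespace I_MM

variable {V : Type} [Fintype V] [DecidableEq V] (H : SimpleGraph V) [DecidableRel H.Adj]

/-- ordered cliques -/
def Q (s : ℕ) : Finset (Fin s → V) :=
  univ.filter fun f : Fin s → V => ∀ a b, a ≠ b → H.Adj (f a) (f b)

/-- common neighbours -/
def N {s : ℕ} (e : Fin s → V) : Finset V := univ.filter fun v => ∀ i, H.Adj v (e i)

theorem mem_Q {s : ℕ} (f : Fin s → V) : f ∈ Q H s ↔ ∀ a b, a ≠ b → H.Adj (f a) (f b) := by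
  simp [Q]

theorem mem_N {s : ℕ} (e : Fin s → V) (v : V) : v ∈ N H e ↔ ∀ i, H.Adj v (e i) := by
  simp [N]

theorem mem_Q_succ {s : ℕ} (a : Fin (s + 1)) (f : Fin (s + 1) → V) :
    f ∈ Q H (s + 1) ↔ a.removeNth f ∈ Q H s ∧ f a ∈ N H (a.removeNth f) := by
  rw [mem_Q, mem_Q, mem_N]
  constructor
  · intro h
    refine ⟨fun i j hij => ?_, fun i => ?_⟩
    · exact h _ _ fun e => hij (Fin.succAbove_right_injective e)
    · exact h _ _ (Fin.succAbove_ne a i).symm
  · rintro ⟨h1, h2⟩ b c hbc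
    rcases Fin.eq_self_or_eq_succAbove a b with rfl | ⟨i, rfl⟩
    · rcases Fin.eq_self_or_eq_succAbove b c with rfl | ⟨j, rfl⟩
      · exact absurd rfl hbc
      · exact h2 j
    · rcases Fin.eq_self_or_eq_succAbove a c with rfl | ⟨j, rfl⟩
      · exact (h2 i).symm
      · exact h1 i j fun e => hbc (by rw [e])

theorem sum_Q_succ {s : ℕ} (a : Fin (s + 1)) (F : (Fin s → V) → ℕ) :
    ∑ f ∈ Q H (s + 1), F (a.removeNth f) = ∑ e ∈ Q H s, (N H e).card * F e := by
  have h1 : ∑ e ∈ Q H s, (N H e).card * F e = ∑ e ∈ Q H s, ∑ _v ∈ N H e, F e := by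
    refine Finset.sum_congr rfl fun e _ => ?_
    rw [Finset.sum_const, smul_eq_mul]
  rw [h1, Finset.sum_sigma']
  refine Finset.sum_bij' (fun f _ => ⟨a.removeNth f, f a⟩) (fun x _ => a.insertNth x.2 x.1)
    ?_ ?_ ?_ ?_ ?_
  · intro f hf
    rw [Finset.mem_sigma]
    exact (mem_Q_succ H a f).1 hf
  · intro x hx
    rw [Finset.mem_sigma] at hx
    rw [mem_Q_succ H a]
    simpa using hx
  · intro f _
    simp
  · intro x _
    simp
  · intro f _
    rfl

theorem card_Q_succ (s : ℕ) : (Q H (s + 1)).card = ∑ e ∈ Q H s, (N H e).card := by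
  have h := sum_Q_succ H (0 : Fin (s + 1)) (fun _ => 1)
  simpa using h

theorem sum_removeNth_le {s : ℕ} (f : Fin (s + 1) → V) :
    ∑ a : Fin (s + 1), (N H (a.removeNth f)).card ≤ Fintype.card V + s * (N H f).card := by
  have h1 : ∑ a : Fin (s + 1), (N H (a.removeNth f)).card =
      ∑ v : V, (univ.filter fun a : Fin (s + 1) => v ∈ N H (a.removeNth f)).card := by
    have h2 : ∀ a : Fin (s + 1), (N H (a.removeNth f)).card =
        ∑ v : V, if v ∈ N H (a.removeNth f) then 1 else 0 := by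
      intro a
      rw [Finset.sum_ite_mem, Finset.univ_inter, Finset.card_eq_sum_ones]
    simp only [h2]
    rw [Finset.sum_comm]
    refine Finset.sum_congr rfl fun v _ => ?_
    rw [Finset.card_filter]
  have h3 : ∀ v : V, (univ.filter fun a : Fin (s + 1) => v ∈ N H (a.removeNth f)).card ≤
      1 + s * (if v ∈ N H f then 1 else 0) := by
    intro v
    split_ifs with hv
    · have := Finset.card_le_univ (univ.filter fun a : Fin (s + 1) => v ∈ N H (a.removeNth f))
      rw [Fintype.card_fin] at this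
      omega
    · rw [mem_N] at hv
      push_neg at hv
      obtain ⟨b, hb⟩ := hv
      rw [mul_zero, add_zero, Finset.card_le_one]
      have key : ∀ a : Fin (s + 1), v ∈ N H (a.removeNth f) → a = b := by
        intro a ha
        by_contra hab
        rw [mem_N] at ha
        obtain ⟨i, hi⟩ := Fin.exists_succAbove_eq (Ne.symm hab)
        apply hb
        rw [← hi]
        exact ha i
      intro x hx y hy
      rw [key x (Finset.mem_filter.1 hx).2, key y (Finset.mem_filter.1 hy).2]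
  rw [h1]
  refine (Finset.sum_le_sum fun v _ => h3 v).trans ?_
  rw [Finset.sum_add_distrib, ← Finset.mul_sum, Finset.sum_ite_mem, Finset.univ_inter]
  simp

end I_MM

open I_MM in
theorem pr_MM : S_MM := by
  intro V _ _ H _ s
  show (s + 1) * (Q H (s + 1)).card ^ 2 ≤
      (Q H s).card * (Fintype.card V * (Q H (s + 1)).card + s * (Q H (s + 2)).card)
  have h1 := card_Q_succ H s
  have h2 : (Q H (s + 2)).card = ∑ f ∈ Q H (s + 1), (N H f).card := card_Q_succ H (s + 1)
  have h3 : (Q H (s + 1)).card ^ 2 ≤ (Q H s).card * ∑ e ∈ Q H s, (N H e).card ^ 2 := by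
    rw [h1]
    exact sq_sum_le_card_mul_sum_sq
  have h4 : (s + 1) * ∑ e ∈ Q H s, (N H e).card ^ 2 ≤
      Fintype.card V * (Q H (s + 1)).card + s * (Q H (s + 2)).card := by
    have e1 : (s + 1) * ∑ e ∈ Q H s, (N H e).card ^ 2 =
        ∑ a : Fin (s + 1), ∑ f ∈ Q H (s + 1), (N H (a.removeNth f)).card := by
      have e2 : ∀ a : Fin (s + 1), ∑ f ∈ Q H (s + 1), (N H (a.removeNth f)).card =
          ∑ e ∈ Q H s, (N H e).card ^ 2 := by
        intro a
        rw [sum_Q_succ H a (fun e => (N H e).card)]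
        refine Finset.sum_congr rfl fun e _ => ?_
        rw [sq]
      simp only [e2]
      simp
    rw [e1, Finset.sum_comm, h2]
    refine (Finset.sum_le_sum fun f _ => sum_removeNth_le H f).trans ?_
    rw [Finset.sum_add_distrib, Finset.sum_const, smul_eq_mul, ← Finset.mul_sum,
      mul_comm (Q H (s + 1)).card]
  calc (s + 1) * (Q H (s + 1)).card ^ 2
      ≤ (s + 1) * ((Q H s).card * ∑ e ∈ Q H s, (N H e).card ^ 2) := Nat.mul_le_mul_left _ h3
    _ = (Q H s).card * ((s + 1) * ∑ e ∈ Q H s, (N H e).card ^ 2) := by ring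
    _ ≤ _ := Nat.mul_le_mul_left _ h4

end Pool.Agent.Work.MP_3154ac_lc
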