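import Pool.Prelude.Def_H_3587d628

/-!
# Multicolored Densest k-Subgraph, PIH, clique gap problems: definitions

Finite graphs are given by adjacency matrices. A polynomial-time function is a function computed by
a polynomial-time Turing machine of Mathlib (`IsPolyTime` of the Prelude).
-/

set_option autoImplicit false

namespace Pool.Agent.Work.MP_3154ac_lc

open N68a2faeb

/-- A code of a finite graph: an adjacency matrix. -/
abbrev Code := List (List Bool)

/-- The entry `(i, j)` of a matrix (`false` outside the matrix). -/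
def entry (c : Code) (i j : ℕ) : Bool := (c.getD i []).getD j false

/-- The graph with adjacency matrix `c`; its vertices are `0, ..., c.length - 1`. -/
def graph (c : Code) : SimpleGraph (Fin c.length) where
  Adj i j := i ≠ j ∧ (entry c i j = true ∨ entry c j i = true)
  symm := ⟨fun _ _ h => ⟨h.1.symm, h.2.symm⟩⟩
  loopless := ⟨fun _ h => h.1 rfl⟩

/-- An instance of MDkS: a graph, the number `k` of parts, and the list of the parts of the
vertices. -/
abbrev Inst := Code × ℕ × List ℕ

/-- `V = V_0 ∪ ... ∪ V_{k-1}` is a partition into nonempty parts. -/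
def Valid (I : Inst) : Prop :=
  I.2.2.length = I.1.length ∧ (∀ p ∈ I.2.2, p < I.2.1) ∧ ∀ i < I.2.1, i ∈ I.2.2

/-- A feasible solution picks one vertex in every part. -/
def IsSol (I : Inst) (s : Fin I.2.1 → Fin I.1.length) : Prop :=
  ∀ i, I.2.2[(s i : ℕ)]? = some (i : ℕ)

open Classical in
/-- The value of a solution: the number of edges between the chosen vertices. -/
noncomputable def value (I : Inst) (s : Fin I.2.1 → Fin I.1.length) : ℕ :=
  (Finset.univ.filter fun p : Fin I.2.1 × Fin I.2.1 =>
    p.1 < p.2 ∧ (graph I.1).Adj (s p.1) (s p.2)).card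

/-- `OPT = C(k, 2)` -/
def Full (I : Inst) : Prop := Valid I ∧ ∃ s, IsSol I s ∧ value I s = I.2.1.choose 2

/-- `OPT < C(k, 2) / (1 + ε)` -/
def Small (ε : ℝ) (I : Inst) : Prop :=
  Valid I ∧ ∀ s, IsSol I s → (value I s : ℝ) < (I.2.1.choose 2 : ℝ) / (1 + ε)

/-- Some FPT algorithm (parameter `κ`) accepts all `x` with `Y x` and rejects all `x` with `N x`.
An FPT algorithm is a polynomial-time function of the input and of a computable function `g` of the
parameter; its running time is at most `f (κ x) * |x| ^ c`. -/
def FPT {α : Type} [N487b59b3 α] (κ : α → ℕ) (Y N : α → Prop) : Prop :=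
  ∃ (g : ℕ → List (List Bool)) (R : List (List Bool) × α → Bool), Computable g ∧ IsPolyTime R ∧
    ∀ x, (Y x → R (g (κ x), x) = true) ∧ (N x → R (g (κ x), x) = false)

/-- The Parameterized Inapproximability Hypothesis. -/
def PIH : Prop := ∃ ε : ℝ, 0 < ε ∧ ¬ FPT (fun I : Inst => I.2.1) Full (Small ε)

/-- Some algorithm with running time `f(k) n^{O(s(k))}`, `f` computable, accepts all graphs `G`
(with `n` vertices) with `Y G k` and rejects all graphs with `N G k`: its answer is computed in
polynomial time from `g(k)`, `g` computable, a string of length `n ^ (c * s k)`, and `(G, k)`. -/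
def InTime (s : ℕ → ℕ) (Y N : Code → ℕ → Prop) : Prop :=
  ∃ (c : ℕ) (g : ℕ → List (List Bool)) (R : (List (List Bool) × List Bool) × (Code × ℕ) → Bool),
    Computable g ∧ IsPolyTime R ∧ ∀ (G : Code) (k : ℕ),
      (Y G k → R ((g k, List.replicate (G.length ^ (c * s k)) true), (G, k)) = true) ∧
      (N G k → R ((g k, List.replicate (G.length ^ (c * s k)) true), (G, k)) = false)

/-- `G` contains a clique with `m` vertices. -/
def HasClique (G : Code) (m : ℕ) : Prop := ∃ s : Finset (Fin G.length), (graph G).IsNClique m s

/-- The main theorem. -/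
def Main : Prop := ¬ PIH → ∀ a b : ℕ, 0 < b → b < a → ∀ q : ℕ → ℕ, Computable q →
  (∀ k, a * q k ≤ b * k) →
    InTime (fun k => Nat.sqrt (q k)) (fun G k => HasClique G k) (fun G k => ¬ HasClique G (q k))

end Pool.Agent.Work.MP_3154ac_lc
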