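import Pool.Agent.Work.MP_3154ac_lc.Defs

/-!
# Search algorithms for cliques: definitions
-/

set_option autoImplicit false

namespace Pool.Agent.Work.MP_3154ac_lc

open N68a2faeb

/-- `l` is the list (without repetition) of the vertices of a clique with at least `m` vertices. -/
def IsCliqueList (G : Code) (m : ℕ) (l : List ℕ) : Prop :=
  ∃ (j : ℕ) (f : Fin j → Fin G.length), m ≤ j ∧ (∀ a b, a ≠ b → (graph G).Adj (f a) (f b)) ∧
    l = List.ofFn fun a => (f a : ℕ)

/-- Some algorithm with running time `f(k) n^{O(s(k))}`, `f` computable, finds in every graph `G`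
(with `n` vertices) with a clique with `k` vertices a clique with at least `q k` vertices: its
output is computed in polynomial time from `g(k)`, `g` computable, a string of length
`n ^ (c * s k)`, and `(G, k)`. -/
def SearchInTime (s q : ℕ → ℕ) : Prop :=
  ∃ (c : ℕ) (g : ℕ → List (List Bool))
    (S : (List (List Bool) × List Bool) × (Code × ℕ) → List ℕ),
    Computable g ∧ IsPolyTime S ∧ ∀ (G : Code) (k : ℕ), HasClique G k →
      IsCliqueList G (q k) (S ((g k, List.replicate (G.length ^ (c * s k)) true), (G, k)))

/-- The integer cube root: the largest `x` with `x ^ 3 ≤ h`. -/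
def cbrt (h : ℕ) : ℕ := Nat.findGreatest (fun x => x ^ 3 ≤ h) h

end Pool.Agent.Work.MP_3154ac_lc
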