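import Pool.Agent.Work.MP_3154ac_lc.Bd.B01
import Pool.Agent.Work.MP_3154ac_lc.Defs2
import Pool.Agent.Work.MP_cfa43e_lc.Q9

/-!
# The search algorithm: definitions and items
-/

set_option autoImplicit false

namespace Pool.Agent.Work.MP_3154ac_lc

open N68a2faeb Finset Pool.Agent.PT

/-- the tuple of vertices with code `j` -/
def tupl (n r j : ℕ) : List ℕ := (List.range r).map fun a => dig n a j

/-- entries at different places are adjacent -/
def cliqB (G : Code) (T : List ℕ) : Bool :=
  (List.range T.length).all fun a => (List.range T.length).all fun b =>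
    decide (a = b) || adjB G (T.getD a 0) (T.getD b 0)

/-- the common neighbours -/
def nbr (G : Code) (T : List ℕ) : List ℕ :=
  (List.range G.length).filter fun v => T.all fun u => adjB G u v

/-- the subgraph induced by the common neighbours -/
def sub (G : Code) (T : List ℕ) : Code :=
  (nbr G T).map fun u => (nbr G T).map fun v => adjB G u v

/-- the test in a round: `a = []` in the last round, otherwise `a` is the code of the auxiliary
data of the decision algorithm -/
def tst (R' : List (List Bool) × Inst → Bool) (pad : List Bool) (G : Code) (a : List Bool)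
    (T : List ℕ) : Bool :=
  cliqB G T &&
    (decide (a = []) || alg R' ((Pool.Agent.PEmb.IQ9.dLL a, pad), (sub G T, 0)))

/-- one round: append the first tuple of length `r` that passes the test -/
def rnd (R' : List (List Bool) × Inst → Bool) (pad : List Bool) (G : Code) (r : ℕ)
    (T : List ℕ) (a : List Bool) : List ℕ :=
  (((List.range pad.length).find? fun j => tst R' pad G a (T ++ tupl G.length r j)).map
    fun j => T ++ tupl G.length r j).getD T

/-- the search algorithm -/
def srch (R' : List (List Bool) × Inst → Bool)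
    (x : (List (List Bool) × List Bool) × (Code × ℕ)) : List ℕ :=
  (x.1.1.drop 1).foldl (rnd R' x.1.2 x.2.1 (x.1.1.getD 0 []).length) []

/-! ### parameters -/

/-- length of the tuples -/
def rr (q k : ℕ) : ℕ := q / cbrt (k - q) + 1

/-- gap in a round -/
def gg (q k : ℕ) : ℕ := (k - q) / (2 * cbrt (k - q))

/-- guaranteed clique number after `i` rounds -/
def pp (q k i : ℕ) : ℕ := k - i * (rr q k + gg q k)

/-- the auxiliary data of round `i` -/
def auxR (g' : ℕ → List (List Bool)) (q k i : ℕ) : List (List Bool) :=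
  auxP2 (pp q k (i + 1)) (pp q k i - rr q k) ++ g' (newK2 (pp q k (i + 1)) (pp q k i - rr q k))

/-- the auxiliary data of the search algorithm -/
def auxS (g' : ℕ → List (List Bool)) (q k : ℕ) : List (List Bool) :=
  List.replicate (rr q k) true :: (List.range (cbrt (k - q))).map fun i =>
    if i + 1 = cbrt (k - q) then [] else N487b59b3.bitEncode (auxR g' q k i)

/-! ### items -/

/-- SUB: cliques in the subgraph of the common neighbours -/
def S_SUB : Prop := ∀ (G : Code) (T : List ℕ) (m : ℕ), HasClique (sub G T) m ↔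
  ∃ s : Finset (Fin G.length), (graph G).IsNClique m s ∧ ∀ v ∈ s, ∀ u ∈ T, adjB G u v = true

/-- STEP: a good tuple exists (uses SUB, DIG) -/
def S_STEP : Prop := ∀ (G : Code) (T : List ℕ) (r p N : ℕ), r ≤ p → G.length ^ r ≤ N →
  (∀ u ∈ T, u < G.length) → cliqB G T = true → HasClique (sub G T) p →
    ∃ j < N, (∀ u ∈ tupl G.length r j, u < G.length) ∧
      cliqB G (T ++ tupl G.length r j) = true ∧
      HasClique (sub G (T ++ tupl G.length r j)) (p - r)

/-- RND: one round (uses STEP) -/
def S_RND : Prop := ∀ (R' : List (List Bool) × Inst → Bool) (pad : List Bool) (G : Code)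
  (r p p' : ℕ) (T : List ℕ) (a : List Bool), r ≤ p → G.length ^ r ≤ pad.length →
  (∀ u ∈ T, u < G.length) → cliqB G T = true → HasClique (sub G T) p →
  (a = [] ∨ ∀ T', T'.length = T.length + r →
    (HasClique (sub G T') (p - r) →
      alg R' ((Pool.Agent.PEmb.IQ9.dLL a, pad), (sub G T', 0)) = true) ∧
    (¬ HasClique (sub G T') p' →
      alg R' ((Pool.Agent.PEmb.IQ9.dLL a, pad), (sub G T', 0)) = false)) →
    (rnd R' pad G r T a).length = T.length + r ∧ (∀ u ∈ rnd R' pad G r T a, u < G.length) ∧
      cliqB G (rnd R' pad G r T a) = true ∧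
      (a ≠ [] → HasClique (sub G (rnd R' pad G r T a)) p')

/-- ARI: arithmetic of the parameters -/
def S_ARI : Prop := ∀ q k : ℕ, q < k → 1 ≤ cbrt (k - q) ∧ q ≤ cbrt (k - q) * rr q k ∧
  (∀ i, i < cbrt (k - q) → rr q k ≤ pp q k i) ∧
  (∀ i, i + 1 < cbrt (k - q) → pp q k (i + 1) < pp q k i - rr q k) ∧
  rr q k ≤ 24 * (k / cbrt (k - q)) ∧
  (∀ i, i + 1 < cbrt (k - q) →
    6 * Nat.sqrt (pp q k (i + 1) * (pp q k i - rr q k) /
      (pp q k i - rr q k - pp q k (i + 1))) ≤ 24 * (k / cbrt (k - q)))

/-- OUT: the output is the list of the vertices of a clique -/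
def S_OUT : Prop := ∀ (G : Code) (T : List ℕ) (m : ℕ), m ≤ T.length →
  (∀ u ∈ T, u < G.length) → cliqB G T = true → IsCliqueList G m T

/-- LOOP: the search algorithm is correct (uses RND, ARI, OUT) -/
def S_LOOP : Prop := ∀ (g' : ℕ → List (List Bool)) (R' : List (List Bool) × Inst → Bool),
  (∀ (G : Code) (Q k k' : ℕ) (pad : List Bool), Q < k →
    G.length ^ (6 * Nat.sqrt (Q * k / (k - Q))) ≤ pad.length →
    (HasClique G k → alg R' ((auxP2 Q k ++ g' (newK2 Q k), pad), (G, k')) = true) ∧
    (¬ HasClique G Q → alg R' ((auxP2 Q k ++ g' (newK2 Q k), pad), (G, k')) = false)) →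
  ∀ (G : Code) (q k k' : ℕ) (pad : List Bool), q < k → HasClique G k →
    G.length ^ (24 * (k / cbrt (k - q))) ≤ pad.length →
      IsCliqueList G q (srch R' ((auxS g' q k, pad), (G, k')))

/-- APS: the search algorithm is computed in polynomial time -/
def S_APS : Prop := S_RPT → ∀ R' : List (List Bool) × Inst → Bool, IsPolyTime R' →
  IsPolyTime (srch R')

/-- AUS: computability of the auxiliary data (uses AUX2) -/
def S_AUS : Prop := ∀ g' : ℕ → List (List Bool), Computable g' →
  Computable fun p : ℕ × ℕ => auxS g' p.1 p.2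

/-- The main theorem for search algorithms. -/
def Main3 : Prop := ¬ PIH → ∀ q : ℕ → ℕ, Computable q → (∀ k, q k ≤ k - 1) →
    SearchInTime (fun k => k / cbrt (k - q k)) q

end Pool.Agent.Work.MP_3154ac_lc
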