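import Pool.Agent.Work.MP_3154ac_lc.Defs
import Pool.Agent.Work.PT.BitEnc

/-!
# The reduction from the clique gap problem to MDkS: definitions and items
-/

set_option autoImplicit false

namespace Pool.Agent.Work.MP_3154ac_lc

open N68a2faeb Finset Pool.Agent.PT

/-! ### combinatorics of cliques -/

section comb

variable {V : Type} [Fintype V] [DecidableEq V] (H : SimpleGraph V) [DecidableRel H.Adj]

/-- number of ordered cliques with `s` vertices -/
def cq (s : ℕ) : ℕ :=
  (univ.filter fun f : Fin s → V => ∀ a b, a ≠ b → H.Adj (f a) (f b)).card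

/-- number of `s`-tuples without a violated pair -/
def nv (s : ℕ) : ℕ :=
  (univ.filter fun f : Fin s → V => ∀ a b, f a = f b ∨ H.Adj (f a) (f b)).card

end comb

/-- MM: the Moon-Moser inequality -/
def S_MM : Prop := ∀ (V : Type) [Fintype V] [DecidableEq V] (H : SimpleGraph V)
  [DecidableRel H.Adj] (s : ℕ),
    (s + 1) * cq H (s + 1) ^ 2 ≤
      cq H s * (Fintype.card V * cq H (s + 1) + s * cq H (s + 2))

/-- TUR: number of cliques in graphs without cliques of size `m + 1` -/
def S_TUR : Prop := ∀ (V : Type) [Fintype V] [DecidableEq V] (H : SimpleGraph V)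
  [DecidableRel H.Adj] (m : ℕ), 1 ≤ m → cq H (m + 1) = 0 → ∀ s,
    cq H s * m ^ s ≤ Fintype.card V ^ s * m.descFactorial s

/-- NV: tuples without a violated pair: cliques plus tuples with a repetition -/
def S_NV : Prop := ∀ (V : Type) [Fintype V] [DecidableEq V] (H : SimpleGraph V)
  [DecidableRel H.Adj] (s : ℕ), 1 ≤ s →
    2 * nv H s ≤ 2 * cq H s + s * (s - 1) * Fintype.card V ^ (s - 1)

/-- BON: Bonferroni bound -/
def S_BON : Prop := ∀ (m s : ℕ), 1 ≤ m → ((m.descFactorial s : ℕ) : ℝ) ≤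
  (m : ℝ) ^ s * (1 - (s * (s - 1) : ℝ) / (2 * m) + ((s * (s - 1) : ℝ) / (2 * m)) ^ 2 / 2)

/-- length of the tuples -/
def sS (a b q : ℕ) : ℕ :=
  if a ≤ (a - b) * (q - 1) then Nat.sqrt (2 * (a - b) * (q - 1) / a) + 1 else 2

/-- number of coordinates -/
def kK (a b q k : ℕ) : ℕ := if a ≤ (a - b) * (q - 1) then k else q

/-- CNT: a random tuple contains a violated pair with constant probability -/
def S_CNT : Prop := ∀ (a b : ℕ), 0 < b → b < a → ∃ c0 : ℕ, 0 < c0 ∧ ∀ q k, 2 ≤ q →
  a * q ≤ b * k → ∀ (H : SimpleGraph (Fin (kK a b q k))) [DecidableRel H.Adj],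
    cq H q = 0 → c0 * nv H (sS a b q) ≤ (c0 - 1) * kK a b q k ^ sS a b q

/-! ### hashing and digits -/

/-- the moduli -/
def mi (W N i : ℕ) : ℕ := (i + 1) * (W * N) + 1

/-- HASH: two different numbers collide for few moduli -/
def S_HASH : Prop := ∀ (L N n D : ℕ), 1 ≤ N → 1 ≤ D → n ≤ N ^ D → ∀ u v, u < n → v < n → u ≠ v →
  ((range L).filter fun i => u % mi L.factorial N i = v % mi L.factorial N i).card < D

/-- digit `a` of `j` in base `b` -/
def dig (b a j : ℕ) : ℕ := ((fun y => y / b)^[a] j) % b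

/-- DIG: digits -/
def S_DIG : Prop := ∀ (b : ℕ), 1 ≤ b →
  (∀ a j, dig b a j = j / b ^ a % b) ∧ (∀ a j, dig b a j < b) ∧
  (∀ (t : ℕ) (x : ℕ → ℕ), (∀ a < t, x a < b) → ∃ j < b ^ t, ∀ a < t, dig b a j = x a) ∧
  (∀ t j j', j < b ^ t → j' < b ^ t → (∀ a < t, dig b a j = dig b a j') → j = j') ∧
  (∀ t r j a, a < t → dig b a (r * b ^ t + j) = dig b a j)

/-- `min (N ^ K) n`, computed with small numbers -/
def cpw (n K N : ℕ) : ℕ := (fun y => min (y * N) n)^[K] 1

/-- the smallest `N ≥ 1` with `n ≤ N ^ K` -/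
def root (n K : ℕ) : ℕ :=
  ((List.range (n + 1)).find? fun N => decide (1 ≤ N) && decide (cpw n K N = n)).getD n

/-- ROOT -/
def S_ROOT : Prop := ∀ n K : ℕ, 1 ≤ n → 1 ≤ K →
  1 ≤ root n K ∧ n ≤ root n K ^ K ∧ root n K ^ K ≤ 2 ^ K * n

/-! ### the reduction -/

/-- adjacency in `graph G`, as a function of natural numbers -/
def adjB (G : Code) (u v : ℕ) : Bool := decide (u ≠ v) && (entry G u v || entry G v u)

/-- the tuple coded by `j` is a partial clique at the coordinates coded by `π` -/
def vaB (s K : ℕ) (G : Code) (π j : ℕ) : Bool :=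
  (List.range s).all fun a => (List.range s).all fun b =>
    if dig K a π = dig K b π then decide (dig G.length a j = dig G.length b j)
    else adjB G (dig G.length a j) (dig G.length b j)

/-- the tuple coded by `j` is compatible with the residues coded by `j'` -/
def coB (s K n : ℕ) (m π j j' : ℕ) : Bool :=
  (List.range s).all fun a => decide (dig n a j % m = dig m (dig K a π) j')

/-- edges between the two types of parts -/
def eB (s K W N : ℕ) (G : Code) (π j i j' : ℕ) : Bool :=
  vaB s K G π j && coB s K G.length (mi W N i) π j j'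

/-- adjacency of the new graph; `M` vertices in every part, `2 L` parts -/
def hB (s K L W N M : ℕ) (G : Code) (u v : ℕ) : Bool :=
  if u / M = v / M then false
  else if u / M < L ∧ L ≤ v / M then eB s K W N G (u / M) (u % M) (v / M - L) (v % M)
  else if v / M < L ∧ L ≤ u / M then eB s K W N G (v / M) (v % M) (u / M - L) (u % M)
  else true

/-- the reduction -/
def red (s K L W M : ℕ) (G : Code) : Inst :=
  ((List.range (2 * L * M)).map fun u => (List.range (2 * L * M)).map fun v =>
      hB s K L W (root G.length K) M G u v,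
    2 * L, (List.range (2 * L * M)).map fun u => u / M)

/-- the tuple `x π` is a partial clique and is compatible with the residues `z i` -/
def cons (G : Code) (s K W N : ℕ) (x z : ℕ → ℕ → ℕ) (π i : ℕ) : Prop :=
  (∀ a < s, ∀ b < s, if dig K a π = dig K b π then x π a = x π b
    else adjB G (x π a) (x π b) = true) ∧
  ∀ a < s, x π a % mi W N i = z i (dig K a π)

/-- two different values of the class `r` collide modulo the `i`-th modulus -/
def bad (s K W N : ℕ) (x : ℕ → ℕ → ℕ) (r i : ℕ) : Prop :=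
  ∃ α < K ^ s, ∃ a < s, ∃ α' < K ^ s, ∃ a' < s,
    x (r * K ^ s + α) a ≠ x (r * K ^ s + α') a' ∧
    x (r * K ^ s + α) a % mi W N i = x (r * K ^ s + α') a' % mi W N i

open Classical in
/-- BAD: few moduli are bad for a class (uses HASH) -/
def S_BAD : Prop := ∀ (s K L N n : ℕ) (x : ℕ → ℕ → ℕ) (r : ℕ), 1 ≤ K → 1 ≤ N → n ≤ N ^ K →
  (∀ π a, x π a < n) →
    ((range L).filter fun i => bad s K L.factorial N x r i).card ≤ (K ^ s * s) ^ 2 * K

open Classical in
/-- GLO: for a good modulus the consistent tuples of a class come from one global assignment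
(uses DIG) -/
def S_GLO : Prop := ∀ (G : Code) (s K W N q c0 : ℕ) (x z : ℕ → ℕ → ℕ) (r i : ℕ), 1 ≤ s →
  1 ≤ K → ¬ HasClique G q →
  (∀ (H : SimpleGraph (Fin K)) [DecidableRel H.Adj], cq H q = 0 →
    c0 * nv H s ≤ (c0 - 1) * K ^ s) →
  (∀ π a, x π a < G.length) → ¬ bad s K W N x r i →
    c0 * ((range (K ^ s)).filter fun α => cons G s K W N x z (r * K ^ s + α) i).card ≤
      (c0 - 1) * K ^ s

open Classical in
/-- ABS: soundness, abstract form. `x π` is the tuple chosen in part `π`, `z i` the residues chosen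
in part `L + i` (uses BAD, GLO). -/
def S_ABS : Prop := ∀ (G : Code) (s K L N q c0 : ℕ), 1 ≤ s → 1 ≤ K → 1 ≤ N → 0 < c0 →
  L = K ^ s * (2 * K ^ (s + 1) * s ^ 2) → G.length ≤ N ^ K → ¬ HasClique G q →
  (∀ (H : SimpleGraph (Fin K)) [DecidableRel H.Adj], cq H q = 0 →
    c0 * nv H s ≤ (c0 - 1) * K ^ s) →
  ∀ (x z : ℕ → ℕ → ℕ), (∀ π a, x π a < G.length) →
    2 * c0 * (((range L) ×ˢ (range L)).filter fun p : ℕ × ℕ =>
      cons G s K L.factorial N x z p.1 p.2).card ≤ (2 * c0 - 1) * L ^ 2

/-- SND: soundness of the reduction -/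
def S_SND : Prop := ∀ (G : Code) (s K L M q c0 : ℕ), 1 ≤ s → 1 ≤ K → 1 ≤ M → 1 ≤ G.length →
  0 < c0 → L = K ^ s * (2 * K ^ (s + 1) * s ^ 2) → ¬ HasClique G q →
  (∀ (H : SimpleGraph (Fin K)) [DecidableRel H.Adj], cq H q = 0 →
    c0 * nv H s ≤ (c0 - 1) * K ^ s) →
  ∀ t, IsSol (red s K L L.factorial M G) t →
    4 * c0 * value (red s K L L.factorial M G) t ≤ (4 * c0 - 1) * (2 * L).choose 2

/-- CPL: completeness of the reduction -/
def S_CPL : Prop := ∀ (G : Code) (s K L W M : ℕ), 1 ≤ s → 1 ≤ K → 1 ≤ L → 1 ≤ G.length →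
  G.length ^ s ≤ M → (2 * (L * W + 1)) ^ K * G.length ≤ M → HasClique G K →
    Full (red s K L W M G)

/-- VLD: the new instance is valid -/
def S_VLD : Prop := ∀ (G : Code) (s K L W M : ℕ), 1 ≤ M → Valid (red s K L W M G)

/-- RPT: the reduction is computed in polynomial time (numbers in unary) -/
def S_RPT : Prop := PTF fun p : (ℕ × ℕ × ℕ × ℕ × ℕ) × Code =>
  red p.1.1 p.1.2.1 p.1.2.2.1 p.1.2.2.2.1 p.1.2.2.2.2 p.2

/-! ### parameters and the final algorithm -/

/-- the auxiliary data: `none`-flag for `q ≤ 1`, the numbers `s, K, L, L!, A` in unary -/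
def auxP (a b q k : ℕ) : List (List Bool) :=
  if q ≤ 1 then [[], List.replicate q true]
  else
    let s := sS a b q
    let K := kK a b q k
    let L := K ^ s * (2 * K ^ (s + 1) * s ^ 2)
    [[true], List.replicate s true, List.replicate K true, List.replicate L true,
      List.replicate L.factorial true, List.replicate ((2 * (L * L.factorial + 1)) ^ K) true]

/-- the parameter of the new instance -/
def newK (a b q k : ℕ) : ℕ :=
  let s := sS a b q
  let K := kK a b q k
  2 * (K ^ s * (2 * K ^ (s + 1) * s ^ 2))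

/-- AUX: computability of the auxiliary data -/
def S_AUX : Prop := ∀ a b : ℕ, (Computable fun p : ℕ × ℕ => auxP a b p.1 p.2) ∧
  (Computable fun p : ℕ × ℕ => newK a b p.1 p.2)

/-- The final algorithm: `x = ((aux, pad), (G, k))`, `aux` consists of six lists followed by the
auxiliary data of the algorithm `R'` for MDkS. -/
def alg (R' : List (List Bool) × Inst → Bool)
    (x : (List (List Bool) × List Bool) × (Code × ℕ)) : Bool :=
  if x.1.1.headD [] = [] then decide (x.1.1.getD 1 [] = []) || decide (x.2.1 ≠ [])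
  else if x.2.1 = [] then false
  else R' (x.1.1.drop 6, red (x.1.1.getD 1 []).length (x.1.1.getD 2 []).length
    (x.1.1.getD 3 []).length (x.1.1.getD 4 []).length
    ((x.1.1.getD 5 []).length * x.1.2.length) x.2.1)

/-- APT: the final algorithm is computed in polynomial time -/
def S_APT : Prop := S_RPT → ∀ R' : List (List Bool) × Inst → Bool, IsPolyTime R' →
  IsPolyTime (alg R')

/-- SQR: the length of the tuples is `O(√q)` -/
def S_SQR : Prop := ∀ a b q : ℕ, 0 < b → b < a → 2 ≤ q → 1 ≤ sS a b q ∧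
  sS a b q ≤ 4 * Nat.sqrt q

end Pool.Agent.Work.MP_3154ac_lc
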